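import Pool.Agent.H68.TG.Targets

/-!
# De Mol's tag system S₂ (problem MP_c95a35_lc): row CNT
-/

set_option autoImplicit false

open List Pool.Agent.H68.TG

namespace Pool.Agent.H30.TG

theorem sum_pairs (g : ℕ → ℝ) (N : ℕ) :
    ∑ i ∈ Finset.range (2 * N), g i = ∑ j ∈ Finset.range N, (g (2 * j) + g (2 * j + 1)) := by
  induction N with
  | zero => simp
  | succ N ih =>
    rw [Nat.mul_succ, Finset.sum_range_succ, Finset.sum_range_succ, ih, Finset.sum_range_succ]
    ring

theorem hf_two (s : Bool) (a z : ℕ) : hf s (2 * a + z) = a + hf s z := by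
  unfold hf
  cases s <;> simp <;> omega

theorem t3_add (e : Bool) (m j z : ℕ) : t3 e (m * j + z) = t3 e m * j + t3 e z := by
  unfold t3
  cases e <;> simp <;> ring

theorem t3_odd (e : Bool) (m : ℕ) (h : Odd m) : Odd (t3 e m) := by
  unfold t3
  cases e
  · simpa using h
  · simp only [if_true]
    exact Odd.mul (by decide) h

theorem bodd_two (a z : ℕ) : (2 * a + z).bodd = z.bodd := by
  simp

theorem drive_step (n : ℕ) (s : Bool) (m a z : ℕ) (B : List (Bool × ℕ)) (X : ℝ) :
    drive (n + 1) (s, 2 * (m * a) + z, B) X =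
      drive n ((nc z.bodd (s, X, B)).1,
        t3 (s2 z.bodd s B) m * a + t3 (s2 z.bodd s B) (hf s z),
        (nc z.bodd (s, X, B)).2.2) (nc z.bodd (s, X, B)).2.1 := by
  have h1 : drive (n + 1) (s, 2 * (m * a) + z, B) X =
      drive n (nx (s, 2 * (m * a) + z, B))
        ((if s2 (2 * (m * a) + z).bodd s B then 3 else 1) * (X + 1) / 2) := rfl
  rw [h1]
  have h2 : nx (s, 2 * (m * a) + z, B) = ((nc z.bodd (s, X, B)).1,
        t3 (s2 z.bodd s B) m * a + t3 (s2 z.bodd s B) (hf s z),
        (nc z.bodd (s, X, B)).2.2) := by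
    unfold nx nc
    simp only [bodd_two, hf_two, t3_add]
  rw [h2, bodd_two]
  rfl

theorem pf_CNT : T_CNT := by
  intro f n
  induction n with
  | zero =>
    intro m r s B X _
    simp [drive, tot]
  | succ n ih =>
    intro m r s B X hm
    rw [show 2 ^ (n + 1) = 2 * 2 ^ n by ring, sum_pairs, Finset.sum_add_distrib]
    have e0 : ∀ j, drive (n + 1) (s, m * (2 * j) + r, B) X =
        drive n ((nc r.bodd (s, X, B)).1,
          t3 (s2 r.bodd s B) m * j + t3 (s2 r.bodd s B) (hf s r),
          (nc r.bodd (s, X, B)).2.2) (nc r.bodd (s, X, B)).2.1 := by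
      intro j
      rw [← drive_step, show m * (2 * j) + r = 2 * (m * j) + r by ring]
    have e1 : ∀ j, drive (n + 1) (s, m * (2 * j + 1) + r, B) X =
        drive n ((nc (m + r).bodd (s, X, B)).1,
          t3 (s2 (m + r).bodd s B) m * j + t3 (s2 (m + r).bodd s B) (hf s (m + r)),
          (nc (m + r).bodd (s, X, B)).2.2) (nc (m + r).bodd (s, X, B)).2.1 := by
      intro j
      rw [← drive_step, show m * (2 * j + 1) + r = 2 * (m * j) + (m + r) by ring]
    simp only [e0, e1]
    rw [ih _ _ _ _ _ (t3_odd _ _ hm), ih _ _ _ _ _ (t3_odd _ _ hm)]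
    have hb : (m + r).bodd = !r.bodd := by
      rw [Nat.bodd_add]
      have : m.bodd = true := by
        obtain ⟨k, rfl⟩ := hm
        rw [bodd_two]
        rfl
      rw [this]
      cases r.bodd <;> rfl
    rw [hb]
    cases r.bodd
    · rfl
    · show tot f n (nc true (s, X, B)) + tot f n (nc false (s, X, B)) =
        tot f n (nc false (s, X, B)) + tot f n (nc true (s, X, B))
      rw [add_comm]

end Pool.Agent.H30.TG
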