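import Pool.Agent.H68.TG.Targets

/-!
# De Mol's tag system S₂ (problem MP_c95a35_lc): row COL
-/

set_option autoImplicit false
set_option linter.unusedSimpArgs false

open List Pool.Agent.H68.TG

namespace Pool.Agent.H30.TG

theorem emb_len (x y : ℕ) :
    (emb (replicate x false ++ replicate y true)).length = x + 2 * y := by
  induction x with
  | zero =>
    induction y with
    | zero => simp [emb]
    | succ y ih =>
      simp only [replicate_zero, nil_append] at ih ⊢
      rw [replicate_succ]
      simp only [emb, length_cons, ih]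
      omega
  | succ x ih =>
    rw [replicate_succ, cons_append]
    simp only [emb, length_cons, ih]
    omega

theorem tape_len (s : Bool) (x y : ℕ) :
    (tape (s, replicate x false ++ replicate y true)).length = val s x y := by
  unfold tape val
  rw [length_drop, emb_len]

theorem tape_short (c : Bool × List Bool) (h : (tape c).length < 2) :
    (tape (pass c)).length ≤ 2 := by
  obtain ⟨t, w⟩ := c
  rcases w with _ | ⟨a, _ | ⟨b, _ | ⟨d, w⟩⟩⟩
  · cases t <;> simp [tape, H68.TG.pass, st, tr, emb]
  · cases t <;> cases a <;> simp [tape, H68.TG.pass, st, tr, emb] at h ⊢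
  · cases t <;> cases a <;> cases b <;> simp [tape, H68.TG.pass, st, tr, emb] at h ⊢
  · exfalso
    cases t <;> cases a <;> cases b <;> cases d <;> simp [tape, emb] at h <;> omega

theorem run_two (h2 : T_DBL) (h3 : T_VAL) (s : Bool) (x y : ℕ)
    (h : cond s 1 0 ≤ x + 2 * y) (j : ℕ) :
    ∃ (s' : Bool) (x' y' : ℕ),
      pass^[2 * j] (s, replicate x false ++ replicate y true) =
        (s', replicate x' false ++ replicate y' true) ∧
      cond s' 1 0 ≤ x' + 2 * y' ∧ val s' x' y' = T^[j] (val s x y) := by
  induction j with
  | zero => exact ⟨s, x, y, rfl, h, rfl⟩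
  | succ j ih =>
    obtain ⟨s', x', y', e1, e2, e3⟩ := ih
    obtain ⟨s'', x'', y'', f1, f2, f3⟩ := h3 s' x' y' e2
    refine ⟨s'', x'', y'', ?_, f2, ?_⟩
    · have hd := h2 (s', x', [(true, y')])
      rw [f1] at hd
      simp only [cfg, flat, append_nil] at hd
      rw [Nat.mul_succ, Function.iterate_succ_apply', Function.iterate_succ_apply', e1, hd]
    · rw [Function.iterate_succ_apply', ← e3, f3]

theorem pf_COL (h1 : T_HLT) (h2 : T_DBL) (h3 : T_VAL) : T_COL := by
  intro s x y
  by_cases h : cond s 1 0 ≤ x + 2 * y
  · rw [h1]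
    constructor
    · rintro ⟨k, hk⟩
      rcases Nat.even_or_odd' k with ⟨j, rfl | rfl⟩
      · obtain ⟨s', x', y', e1, e2, e3⟩ := run_two h2 h3 s x y h j
        rw [e1, tape_len, e3] at hk
        exact ⟨j, by omega⟩
      · obtain ⟨s', x', y', e1, e2, e3⟩ := run_two h2 h3 s x y h (j + 1)
        have hs := tape_short _ hk
        rw [← Function.iterate_succ_apply' (f := H68.TG.pass)] at hs
        rw [Nat.mul_succ] at e1
        rw [show (2 * j + 1).succ = 2 * j + 2 from rfl] at hs
        rw [e1, tape_len, e3] at hs
        have h3c : T^[j + 1] (val s x y) ≤ 1 ∨ T^[j + 1] (val s x y) = 2 := by omega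
        rcases h3c with h4 | h4
        · exact ⟨j + 1, h4⟩
        · refine ⟨j + 1 + 1, ?_⟩
          rw [Function.iterate_succ_apply', h4]
          simp [T]
    · rintro ⟨j, hj⟩
      obtain ⟨s', x', y', e1, e2, e3⟩ := run_two h2 h3 s x y h j
      refine ⟨2 * j, ?_⟩
      rw [e1, tape_len, e3]
      omega
  · constructor
    · intro _
      refine ⟨0, ?_⟩
      simp only [Function.iterate_zero, id_eq]
      unfold val
      omega
    · intro _
      refine ⟨0, ?_⟩
      simp only [Function.iterate_zero, id_eq]
      rw [tape_len]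
      unfold val
      omega

end Pool.Agent.H30.TG
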