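import Pool.Agent.H30.TG.COL

/-!
# De Mol's tag system S₂ (problem MP_c95a35_lc): row TWO
-/

set_option autoImplicit false

open List Pool.Agent.H68.TG

namespace Pool.Agent.H30.TG

theorem dd_succ (y : ℕ) : dd (y + 1) = 1 :: 2 :: dd y := by
  simp [dd, replicate_succ]

theorem emb_true (y : ℕ) : emb (replicate y true) = dd y := by
  induction y with
  | zero => rfl
  | succ y ih =>
    rw [replicate_succ, dd_succ]
    simp only [emb, ih]

theorem emb_false_append (x : ℕ) (w : List Bool) :
    emb (replicate x false ++ w) = replicate x 0 ++ emb w := by
  induction x with
  | zero => rfl
  | succ x ih =>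
    rw [replicate_succ, replicate_succ, cons_append, cons_append]
    simp only [emb, ih]

theorem emb_true_append (y : ℕ) (w : List Bool) :
    emb (replicate y true ++ w) = dd y ++ emb w := by
  induction y with
  | zero => rfl
  | succ y ih =>
    rw [replicate_succ, dd_succ, cons_append, cons_append, cons_append]
    simp only [emb, ih]

theorem emb_false (x : ℕ) : emb (replicate x false) = replicate x 0 := by
  have h := emb_false_append x []
  rwa [append_nil, show emb [] = [] from rfl, append_nil] at h

theorem dd_len (y : ℕ) : (dd y).length = 2 * y := by
  induction y with
  | zero => rfl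
  | succ y ih =>
    rw [dd_succ, length_cons, length_cons, ih]
    omega

theorem val_odd (x y : ℕ) : val x.bodd y (hf false x) = x + y := by
  unfold val hf
  have h := Nat.mod_two_of_bodd x
  cases hb : x.bodd
  · rw [hb] at h
    simp only [Bool.toNat_false] at h
    simp
    omega
  · rw [hb] at h
    simp only [Bool.toNat_true] at h
    simp
    omega

theorem pf_TWO (h1 : T_HLT) (h2 : T_RDB) (h3 : T_COL) : T_TWO := by
  obtain ⟨-, -, -, -, g5, g6, g7, -, -⟩ := h2
  refine ⟨?_, ?_⟩
  · rintro w ⟨x, y, rfl | rfl⟩
    · have e : replicate x 0 ++ dd y = tape (false, replicate x false ++ replicate y true) := by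
        rw [← emb_true, ← emb_false_append]
        rfl
      rw [e, tape_len]
      exact h3 false x y
    · have e : (2 : Fin 3) :: dd y =
          tape (true, replicate 0 false ++ replicate (y + 1) true) := by
        rw [← emb_true]
        rfl
      rw [e, tape_len]
      exact h3 true 0 (y + 1)
  · intro x y
    have e : dd y ++ replicate x 0 = tape (false, replicate y true ++ replicate x false) := by
      rw [← emb_false, ← emb_true_append]
      rfl
    have ep : H68.TG.pass (false, replicate y true ++ replicate x false) =
        (x.bodd, replicate y false ++ replicate (hf false x) true) := by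
      have a1 := (g5 false (replicate y true) (replicate x false)).1
      have a2 := (g5 false (replicate y true) (replicate x false)).2
      rw [(g6 false y).2, (g7 false x).2] at a2
      rw [(g6 false y).1, (g6 false y).2, (g7 false x).1] at a1
      show (st false (replicate y true ++ replicate x false),
        tr false (replicate y true ++ replicate x false)) = _
      rw [a1, a2]
      simp [t3]
    have hc := h3 x.bodd y (hf false x)
    rw [val_odd, ← ep] at hc
    rw [← hc, e, h1, h1]
    constructor
    · rintro ⟨k, hk⟩
      rcases k with _ | k
      · have hl : 2 * y + x < 2 := by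
          have h0 : (tape (false, replicate y true ++ replicate x false)).length = 2 * y + x := by
            rw [← e, length_append, dd_len, length_replicate]
          simp only [Function.iterate_zero, id_eq] at hk
          rw [h0] at hk
          exact hk
        have hr : Reach (x + y) := ⟨0, by
          simp only [Function.iterate_zero, id_eq]
          omega⟩
        exact (h1 _).1 (hc.2 hr)
      · exact ⟨k, by rwa [Function.iterate_succ_apply] at hk⟩
    · rintro ⟨k, hk⟩
      exact ⟨k + 1, by rwa [Function.iterate_succ_apply]⟩

end Pool.Agent.H30.TG
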